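import Pool.Agent.NH98.KB.Pol
import Pool.Agent.NH47.AZ.Weight

set_option autoImplicit false
set_option linter.unusedSectionVars false

/-! Kernel dimensions and the exponent of the abelianization. -/

namespace Pool.Agent.NH98.KB

open Pool.Agent.W649.ZL Pool.Agent.NH47.AZ

universe u v

/-- Simultaneous approximation modulo `n`. -/
theorem pigeon {ι : Type v} [Fintype ι] (n q : ℕ) (hq : 0 < q)
    (hn : q ^ Fintype.card ι < n) (a : ι → ℕ) :
    ∃ u : ℕ, 0 < u ∧ u < n ∧ ∀ i, ∃ c : ℤ, (n : ℤ) ∣ (u : ℤ) * a i - c ∧ (q : ℤ) * |c| < n := by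
  classical
  have hn0 : 0 < n := by omega
  let f : Fin n → (ι → Fin q) := fun x i => ⟨q * ((x.1 * a i) % n) / n, by
    rw [Nat.div_lt_iff_lt_mul hn0]
    exact Nat.mul_lt_mul_of_pos_left (Nat.mod_lt _ hn0) hq⟩
  have hcard : Fintype.card (ι → Fin q) < Fintype.card (Fin n) := by
    rw [Fintype.card_fun, Fintype.card_fin, Fintype.card_fin]
    exact hn
  obtain ⟨x, y, hxy, hf⟩ := Fintype.exists_ne_map_eq_of_card_lt f hcard
  wlog hlt : x < y generalizing x y with H
  · exact H y x hxy.symm hf.symm (lt_of_le_of_ne (not_lt.1 hlt) hxy.symm)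
  refine ⟨y.1 - x.1, by
    have : x.1 < y.1 := hlt
    omega, by omega, fun i => ?_⟩
  refine ⟨(((y.1 * a i) % n : ℕ) : ℤ) - (((x.1 * a i) % n : ℕ) : ℤ), ?_, ?_⟩
  · have h1 := Nat.div_add_mod (y.1 * a i) n
    have h2 := Nat.div_add_mod (x.1 * a i) n
    have hle : x.1 ≤ y.1 := le_of_lt hlt
    refine ⟨(((y.1 * a i) / n : ℕ) : ℤ) - (((x.1 * a i) / n : ℕ) : ℤ), ?_⟩
    have h1' : (n : ℤ) * ((y.1 * a i) / n : ℕ) + ((y.1 * a i) % n : ℕ) = (y.1 : ℤ) * a i := by
      exact_mod_cast h1
    have h2' : (n : ℤ) * ((x.1 * a i) / n : ℕ) + ((x.1 * a i) % n : ℕ) = (x.1 : ℤ) * a i := by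
      exact_mod_cast h2
    rw [Nat.cast_sub hle]
    linear_combination h2' - h1'
  · have hfi : q * ((x.1 * a i) % n) / n = q * ((y.1 * a i) % n) / n := by
      have := congrFun hf i
      exact congrArg Fin.val this
    have h1 := Nat.div_add_mod (q * ((x.1 * a i) % n)) n
    have h2 := Nat.div_add_mod (q * ((y.1 * a i) % n)) n
    have h3 := Nat.mod_lt (q * ((x.1 * a i) % n)) hn0
    have h4 := Nat.mod_lt (q * ((y.1 * a i) % n)) hn0
    rw [hfi] at h1
    set A := (x.1 * a i) % n
    set B := (y.1 * a i) % n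
    have h5 : (q : ℤ) * |((B : ℕ) : ℤ) - ((A : ℕ) : ℤ)| = |(q : ℤ) * B - (q : ℤ) * A| := by
      rw [← mul_sub, abs_mul, Nat.abs_cast]
    rw [h5, abs_lt]
    have h1' : ((n * (q * B / n) : ℕ) : ℤ) + ((q * A % n : ℕ) : ℤ) = (q : ℤ) * A := by
      exact_mod_cast h1
    have h2' : ((n * (q * B / n) : ℕ) : ℤ) + ((q * B % n : ℕ) : ℤ) = (q : ℤ) * B := by
      exact_mod_cast h2
    have h3' : ((q * A % n : ℕ) : ℤ) < n := by exact_mod_cast h3
    have h4' : ((q * B % n : ℕ) : ℤ) < n := by exact_mod_cast h4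
    have h6 : (0 : ℤ) ≤ ((q * A % n : ℕ) : ℤ) := Int.natCast_nonneg _
    have h7 : (0 : ℤ) ≤ ((q * B % n : ℕ) : ℤ) := Int.natCast_nonneg _
    constructor <;> linarith

/-- A finite abelianization of exponent more than `N` has a character of order more than `N`. -/
theorem exists_char {K : Type u} [Group K] (hfin : Finite (Abelianization K)) (N : ℕ)
    (hN : N < Monoid.exponent (Abelianization K)) :
    ∃ χ : K →* ℂˣ, 0 < orderOf χ ∧ N < orderOf χ := by
  classical
  let A := Abelianization K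
  have hX : Monoid.ExponentExists (A →* ℂˣ) := by
    refine ⟨Nat.card A, Nat.card_pos, fun χ => ?_⟩
    refine MonoidHom.ext fun a => ?_
    rw [MonoidHom.pow_apply, ← map_pow, pow_card_eq_one', map_one, MonoidHom.one_apply]
  obtain ⟨χ, hχ⟩ := Monoid.exists_orderOf_eq_exponent hX
  have hpos : 0 < orderOf χ := by
    rw [hχ]; exact Nat.pos_of_ne_zero hX.exponent_ne_zero
  have hle : Monoid.exponent A ≤ orderOf χ := by
    rw [hχ]
    apply Monoid.exponent_min' _ (Nat.pos_of_ne_zero hX.exponent_ne_zero)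
    intro a
    by_contra hne
    have : NeZero (Monoid.exponent A) := ⟨Monoid.exponent_ne_zero_of_finite⟩
    obtain ⟨φ, hφ⟩ := CommGroup.exists_apply_ne_one_of_hasEnoughRootsOfUnity A ℂ hne
    apply hφ
    rw [map_pow, ← MonoidHom.pow_apply, Monoid.pow_exponent_eq_one, MonoidHom.one_apply]
  refine ⟨χ.comp Abelianization.of, ?_, ?_⟩
  · have h1 : (χ.comp Abelianization.of : K →* ℂˣ) ^ orderOf χ = 1 := by
      ext x
      rw [MonoidHom.pow_apply, MonoidHom.comp_apply, ← MonoidHom.pow_apply, pow_orderOf_eq_one,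
        MonoidHom.one_apply, MonoidHom.one_apply]
    have h2 : IsOfFinOrder (χ.comp Abelianization.of : K →* ℂˣ) := by
      rw [isOfFinOrder_iff_pow_eq_one]
      exact ⟨orderOf χ, hpos, h1⟩
    exact h2.orderOf_pos
  · have h1 : (χ.comp Abelianization.of : K →* ℂˣ) ^ orderOf χ = 1 := by
      ext x
      rw [MonoidHom.pow_apply, MonoidHom.comp_apply, ← MonoidHom.pow_apply, pow_orderOf_eq_one,
        MonoidHom.one_apply, MonoidHom.one_apply]
    have h2' : IsOfFinOrder (χ.comp Abelianization.of : K →* ℂˣ) := by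
      rw [isOfFinOrder_iff_pow_eq_one]
      exact ⟨orderOf χ, hpos, h1⟩
    have h2 := h2'.orderOf_pos
    refine lt_of_lt_of_le hN (hle.trans (Nat.le_of_dvd h2 ?_))
    apply orderOf_dvd_of_pow_eq_one
    refine MonoidHom.ext fun a => ?_
    obtain ⟨x, rfl⟩ := QuotientGroup.mk_surjective a
    have h3 := pow_orderOf_eq_one (χ.comp Abelianization.of : K →* ℂˣ)
    have h4 := DFunLike.congr_fun h3 x
    rw [MonoidHom.pow_apply, MonoidHom.one_apply]
    exact h4

section
variable {G : Type u} [Group G]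

/-- The element `A 0 + x A 1 + ⋯ + x ^ r A r`. -/
noncomputable def cur (A : ℕ → (G →₀ ℂ)) (r : ℕ) (x : ℂ) : G →₀ ℂ :=
  ∑ i ∈ Finset.range (r + 1), x ^ i • A i

theorem cop_cur (A : ℕ → (G →₀ ℂ)) (r : ℕ) (x : ℂ) :
    cop (cur A r x) = pol (fun i => cop (A i)) r x := by
  ext1 f
  rw [pol_apply, cur, map_sum, sum_apply]
  refine Finset.sum_congr rfl fun i _ => ?_
  rw [map_smul]
  rfl

theorem bez (A : ℕ → (G →₀ ℂ)) (r : ℕ) (y : ℂ) (S : Finset ℂ) :
    ∑ x ∈ S, (kdim (cur A r x) - kdim (cur A r y)) ≤ r * (1 - kdim (cur A r y)) := by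
  have h := main3 r (fun i => cop (A i)) (fun i => cop_eqv (A i)) y S
  simp only [kdim_eq_vd, cop_cur]
  simpa using h

theorem bez_infty (A : ℕ → (G →₀ ℂ)) (r : ℕ) (S : Finset ℂ) :
    ∑ x ∈ S, (kdim (cur A r x) - kdim (A r)) ≤ r * (1 - kdim (A r)) := by
  have h := main2 r (fun i => cop (A i)) (fun i => cop_eqv (A i)) S
  simp only [kdim_eq_vd, cop_cur]
  simpa using h

theorem cur_apply (A : ℕ → (G →₀ ℂ)) (r : ℕ) (x : ℂ) (s : G) :
    cur A r x s = ∑ i ∈ Finset.range (r + 1), x ^ i * A i s := by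
  unfold cur
  rw [Finsupp.finsetSum_apply]
  rfl

open Classical in
theorem chars (α : G →₀ ℂ) (t : G) (P : Subgroup G)
    (hP : ∀ s ∈ α.support, t⁻¹ * s ∈ P) (χ : P →* ℂˣ) (ζ : ℂ) (e : G → ℕ) (r n : ℕ)
    (he : ∀ s (hs : s ∈ α.support), e s ≤ r ∧ (χ ⟨t⁻¹ * s, hP s hs⟩ : ℂ) = ζ ^ e s)
    (hζ : ∀ i < n, ∀ j < n, ζ ^ i = ζ ^ j → i = j) (x : ℂ) (β : G →₀ ℂ)
    (hβ : ∀ s, β s = x ^ e s * α s) :
    n * (kdim α - kdim β) ≤ r * (1 - kdim β) := by
  set A : ℕ → (G →₀ ℂ) := fun i => α.filter (fun s => e s = i) with hA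
  have hcur : ∀ (y : ℂ) (s : G), cur A r y s = y ^ e s * α s := by
    intro y s
    rw [cur_apply]
    by_cases hs : s ∈ α.support
    · rw [Finset.sum_eq_single (e s)]
      · rw [hA]
        simp only
        rw [Finsupp.filter_apply_pos (fun s' => e s' = e s) α rfl]
      · intro i _ hi
        rw [hA]
        simp only
        rw [Finsupp.filter_apply_neg _ _ (fun h => hi h.symm), mul_zero]
      · intro h
        exfalso
        apply h
        rw [Finset.mem_range]
        have := (he s hs).1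
        omega
    · have h0 : α s = 0 := Finsupp.notMem_support_iff.1 hs
      rw [h0, mul_zero]
      apply Finset.sum_eq_zero
      intro i _
      rw [hA]
      simp only
      rw [Finsupp.filter_apply, h0, ite_self, mul_zero]
  have hβ' : cur A r x = β := by
    ext s
    rw [hcur, hβ]
  have htw : ∀ k : ℕ, kdim (cur A r (ζ ^ k)) = kdim α := by
    intro k
    apply kdim_twist P t (fun y => if h : y ∈ P then (χ ⟨y, h⟩ : ℂ) ^ k else 1) _ _
      α (cur A r (ζ ^ k)) hP
    · intro s
      rw [hcur]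
      by_cases hs : s ∈ α.support
      · rw [dif_pos (hP s hs), (he s hs).2, ← pow_mul, ← pow_mul, mul_comm k]
      · rw [Finsupp.notMem_support_iff.1 hs, mul_zero, mul_zero]
    · intro y hy
      rw [dif_pos hy]
      exact pow_ne_zero _ (Units.ne_zero _)
    · intro y hy z hz
      rw [dif_pos hy, dif_pos hz, dif_pos (P.mul_mem hy hz), ← mul_pow, ← Units.val_mul,
        ← map_mul]
      rfl
  have h1 := bez A r x ((Finset.range n).image (fun k => ζ ^ k))
  rw [Finset.sum_image (by
    intro i hi j hj hij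
    exact hζ i (Finset.mem_range.1 hi) j (Finset.mem_range.1 hj) hij)] at h1
  rw [Finset.sum_congr rfl fun k _ => by rw [htw k, hβ'], Finset.sum_const, Finset.card_range,
    nsmul_eq_mul, hβ'] at h1
  exact h1

theorem kdim_nonneg' (α : G →₀ ℂ) : 0 ≤ kdim α := by
  rw [kdim_eq_vd]
  exact vd_nonneg _

open Classical in
/-- If the exponent of the abelianization is large, one can pass to a smaller part with a small
loss. -/
theorem drop (α : G →₀ ℂ) (S : Finset G) (t : G) (ht : t ∈ S)
    (hfin : Finite (Abelianization (quo S t))) (q : ℕ) (hq : 0 < q)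
    (hexp : q ^ (S.card - 1) < Monoid.exponent (Abelianization (quo S t))) :
    ∃ S' ⊆ S, S'.Nonempty ∧ S' ≠ S ∧ kdim (part α S) ≤ kdim (part α S') + 2 / q := by
  obtain ⟨χ, hpos, hn⟩ := exists_char hfin _ hexp
  set n := orderOf χ with hndef
  have hnz : NeZero n := ⟨hpos.ne'⟩
  obtain ⟨ζ, hζ⟩ : ∃ ζ : ℂ, IsPrimitiveRoot ζ n := ⟨_, Complex.isPrimitiveRoot_exp n hpos.ne'⟩
  have hval : ∀ x : quo S t, ∃ i : ℕ, ζ ^ i = (χ x : ℂ) := by
    intro x
    have h1 : (χ x : ℂ) ^ n = 1 := by
      rw [← Units.val_pow_eq_pow_val, ← MonoidHom.pow_apply, pow_orderOf_eq_one,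
        MonoidHom.one_apply, Units.val_one]
    obtain ⟨i, -, hi⟩ := hζ.eq_pow_of_pow_eq_one h1
    exact ⟨i, hi⟩
  choose a ha using hval
  have hcard : Fintype.card (S.erase t : Finset G) = S.card - 1 := by
    rw [Fintype.card_coe, Finset.card_erase_of_mem ht]
  obtain ⟨w, hw0, hwn, hw⟩ := pigeon (ι := (S.erase t : Finset G)) n q hq (by rw [hcard]; exact hn)
    (fun s => a ⟨t⁻¹ * (s : G), mem_quo S t s (Finset.mem_of_mem_erase s.2)⟩)
  -- integral exponents
  have hex : ∀ s : G, ∃ c : ℤ, (q : ℤ) * |c| < n ∧ ∀ hs : s ∈ S,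
      ((χ ⟨t⁻¹ * s, mem_quo S t s hs⟩ : ℂˣ) : ℂ) ^ w = ζ ^ c := by
    intro s
    by_cases hs : s ∈ S
    · by_cases hst : s = t
      · refine ⟨0, by simpa using hpos, fun hs => ?_⟩
        subst hst
        have h1 : (⟨s⁻¹ * s, mem_quo S s s hs⟩ : quo S s) = 1 := Subtype.ext (inv_mul_cancel s)
        rw [h1, map_one, Units.val_one, one_pow, zpow_zero]
      · obtain ⟨c, hc1, hc2⟩ := hw ⟨s, Finset.mem_erase.2 ⟨hst, hs⟩⟩
        refine ⟨c, hc2, fun hs => ?_⟩
        rw [← ha, ← pow_mul, ← zpow_natCast]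
        obtain ⟨k, hk⟩ := hc1
        have h2 : (((a ⟨t⁻¹ * s, mem_quo S t s hs⟩ * w : ℕ) : ℤ)) = c + n * k := by
          push_cast
          have : (w : ℤ) * a ⟨t⁻¹ * s, mem_quo S t s hs⟩ - c = n * k := hk
          linarith
        rw [h2, zpow_add₀ (hζ.ne_zero hpos.ne'), zpow_mul, zpow_natCast, hζ.pow_eq_one, one_zpow,
          mul_one]
    · exact ⟨0, by simpa using hpos, fun h => absurd h hs⟩
  choose c hc1 hc2 using hex
  obtain ⟨t', ht', hmin⟩ := S.exists_min_image c ⟨t, ht⟩
  set S' := S.filter (fun s => c s = c t') with hS'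
  have hS't : t' ∈ S' := Finset.mem_filter.2 ⟨ht', rfl⟩
  refine ⟨S', Finset.filter_subset _ _, ⟨t', hS't⟩, ?_, ?_⟩
  · -- not all exponents are equal
    intro heq
    have hall : ∀ s ∈ S, c s = c t' := by
      intro s hs
      rw [← heq] at hs
      exact (Finset.mem_filter.1 hs).2
    have hct : c t = 0 ∨ ζ ^ (c t) = 1 := by
      right
      rw [← hc2 t ht]
      have h1 : (⟨t⁻¹ * t, mem_quo S t t ht⟩ : quo S t) = 1 := Subtype.ext (inv_mul_cancel t)
      rw [h1, map_one, Units.val_one, one_pow]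
    have hct1 : ζ ^ (c t) = 1 := by
      rcases hct with h | h
      · rw [h, zpow_zero]
      · exact h
    have htriv : χ ^ w = 1 := by
      have hle : quo S t ≤ (quo S t).subtype.range := by
        intro x hx
        exact ⟨⟨x, hx⟩, rfl⟩
      -- the kernel, as a subgroup of `G`
      let M : Subgroup G := ((χ ^ w).ker).map (quo S t).subtype
      have hM : quo S t ≤ M := by
        unfold quo
        rw [Subgroup.closure_le]
        rintro y ⟨s, hs, rfl⟩
        refine ⟨⟨t⁻¹ * s, mem_quo S t s hs⟩, ?_, rfl⟩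
        change (χ ^ w) _ = 1
        apply Units.ext
        rw [MonoidHom.pow_apply, Units.val_pow_eq_pow_val, hc2 s hs, hall s hs, ← hall t ht, hct1,
          Units.val_one]
      ext x
      obtain ⟨y, hy, hyx⟩ := hM x.2
      have : y = x := Subtype.ext hyx
      subst this
      have hy' : (χ ^ w) y = 1 := hy
      rw [hy']
      rfl
    have hdvd : orderOf χ ∣ w := by
      apply orderOf_dvd_of_pow_eq_one
      exact htriv
    have := Nat.le_of_dvd hw0 hdvd
    omega
  · -- the inequality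
    let e : G → ℕ := fun s => if s ∈ S then (c s - c t').toNat else 0
    have he0 : ∀ s ∈ S, ((e s : ℕ) : ℤ) = c s - c t' := by
      intro s hs
      simp only [e, if_pos hs]
      exact Int.toNat_of_nonneg (by have := hmin s hs; linarith)
    have hsup : ∀ s ∈ (part α S).support, s ∈ S := by
      intro s hs
      by_contra hne
      exact (Finsupp.mem_support_iff.1 hs) (part_apply_not α S s hne)
    have hPm : ∀ s ∈ (part α S).support, t'⁻¹ * s ∈ quo S t := by
      intro s hs
      have h1 := mem_quo S t s (hsup s hs)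
      have h2 := mem_quo S t t' ht'
      have h3 := (quo S t).mul_mem ((quo S t).inv_mem h2) h1
      have h4 : (t⁻¹ * t')⁻¹ * (t⁻¹ * s) = t'⁻¹ * s := by group
      rwa [h4] at h3
    have hz : ζ ≠ 0 := hζ.ne_zero hpos.ne'
    have hmain := chars (part α S) t' (quo S t) hPm (χ ^ w) ζ e ((2 * n - 1) / q) n (by
      intro s hs
      have hsS := hsup s hs
      constructor
      · rw [Nat.le_div_iff_mul_le hq]
        have h1 := hc1 s
        have h2 := hc1 t'
        have h3 : ((e s * q : ℕ) : ℤ) < 2 * n := by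
          push_cast
          rw [he0 s hsS]
          have h4 := le_abs_self (c s)
          have h5 := neg_abs_le (c t')
          have hq' : (0 : ℤ) ≤ q := Int.natCast_nonneg q
          nlinarith
        have h4 : e s * q < 2 * n := by exact_mod_cast h3
        omega
      · have h1 : (⟨t'⁻¹ * s, hPm s hs⟩ : quo S t)
            = (⟨t⁻¹ * t', mem_quo S t t' ht'⟩ : quo S t)⁻¹ * ⟨t⁻¹ * s, mem_quo S t s hsS⟩ := by
          apply Subtype.ext
          change t'⁻¹ * s = (t⁻¹ * t')⁻¹ * (t⁻¹ * s)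
          group
        rw [h1, map_mul, map_inv, MonoidHom.pow_apply, MonoidHom.pow_apply, Units.val_mul,
          Units.val_inv_eq_inv_val, Units.val_pow_eq_pow_val, Units.val_pow_eq_pow_val,
          hc2 s hsS, hc2 t' ht', ← zpow_natCast, he0 s hsS, zpow_sub₀ hz]
        field_simp) (by
      intro i hi j hj hij
      exact hζ.pow_inj hi hj hij) 0 (part α S') (by
      intro s
      by_cases hs : s ∈ S
      · by_cases hs' : c s = c t'
        · have h1 : e s = 0 := by
            have := he0 s hs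
            rw [hs', sub_self] at this
            exact_mod_cast this
          rw [h1, pow_zero, one_mul, part_apply_mem α S s hs,
            part_apply_mem α S' s (Finset.mem_filter.2 ⟨hs, hs'⟩)]
        · have h1 : e s ≠ 0 := by
            intro h0
            have := he0 s hs
            rw [h0] at this
            push_cast at this
            apply hs'
            linarith
          rw [zero_pow h1, zero_mul, part_apply_not α S' s (fun h => hs' (Finset.mem_filter.1 h).2)]
      · rw [part_apply_not α S s hs, mul_zero,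
          part_apply_not α S' s (fun h => hs (Finset.mem_filter.1 h).1)])
    have hk := kdim_nonneg' (part α S')
    have hn' : (0 : ℝ) < n := by exact_mod_cast hpos
    have hq' : (0 : ℝ) < q := by exact_mod_cast hq
    have hr : (((2 * n - 1) / q : ℕ) : ℝ) ≤ 2 * n / q := by
      rw [le_div_iff₀ hq']
      have h1 : (2 * n - 1) / q * q ≤ 2 * n := (Nat.div_mul_le_self _ _).trans (by omega)
      exact_mod_cast h1
    have h6 : (n : ℝ) * (kdim (part α S) - kdim (part α S')) ≤ 2 * n / q := by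
      refine hmain.trans ?_
      have h7 : (((2 * n - 1) / q : ℕ) : ℝ) * (1 - kdim (part α S')) ≤
          (((2 * n - 1) / q : ℕ) : ℝ) := by
        have : (0 : ℝ) ≤ (((2 * n - 1) / q : ℕ) : ℝ) := Nat.cast_nonneg _
        nlinarith
      linarith
    have h8 : (n : ℝ) * (kdim (part α S) - kdim (part α S')) ≤ n * (2 / q) := by
      refine h6.trans (le_of_eq ?_)
      ring
    have := le_of_mul_le_mul_left h8 hn'
    linarith

/-- Bounded exponents. -/
theorem bounded (α : G →₀ ℂ) (q m : ℕ) (hq : 0 < q) : ∀ (k : ℕ) (S : Finset G), S.card = k →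
    S.card ≤ m → S.Nonempty →
    ∃ S' ⊆ S, ∃ t ∈ S', Finite (Abelianization (quo S' t)) ∧
      Monoid.exponent (Abelianization (quo S' t)) ≤ q ^ (m - 1) ∧
      kdim (part α S) ≤ kdim (part α S') + 2 * (k - 1 : ℝ) / q := by
  intro k
  induction k using Nat.strong_induction_on with
  | _ k ih =>
    intro S hS hSm hne
    have hq' : (0 : ℝ) < q := by exact_mod_cast hq
    obtain ⟨S1, hS1, t, ht, hfin, h1⟩ := descent α k S hS hne
    have hS1k : S1.card ≤ k := by rw [← hS]; exact Finset.card_le_card hS1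
    have hk1 : (1 : ℝ) ≤ k := by
      have : 0 < S.card := Finset.card_pos.2 hne
      rw [hS] at this
      exact_mod_cast this
    by_cases hexp : Monoid.exponent (Abelianization (quo S1 t)) ≤ q ^ (m - 1)
    · refine ⟨S1, hS1, t, ht, hfin, hexp, ?_⟩
      have : 0 ≤ 2 * (k - 1 : ℝ) / q := by
        apply div_nonneg _ hq'.le
        linarith
      linarith
    · push Not at hexp
      have h2 : q ^ (S1.card - 1) < Monoid.exponent (Abelianization (quo S1 t)) := by
        refine lt_of_le_of_lt (Nat.pow_le_pow_right hq ?_) hexp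
        omega
      obtain ⟨S2, hS2, hne2, hne2', h3⟩ := drop α S1 t ht hfin q hq h2
      have hlt : S2.card < k := by
        refine lt_of_lt_of_le (Finset.card_lt_card ?_) hS1k
        exact Finset.ssubset_iff_subset_ne.2 ⟨hS2, hne2'⟩
      obtain ⟨S3, hS3, t3, ht3, hfin3, hexp3, h4⟩ := ih S2.card hlt S2 rfl (by omega) hne2
      refine ⟨S3, hS3.trans (hS2.trans hS1), t3, ht3, hfin3, hexp3, ?_⟩
      have h5 : ((S2.card : ℝ) - 1) ≤ (k - 1 : ℝ) - 1 := by
        have : (S2.card : ℝ) + 1 ≤ k := by exact_mod_cast hlt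
        linarith
      have h6 : 2 * ((S2.card : ℝ) - 1) / q + 2 / q ≤ 2 * (k - 1 : ℝ) / q := by
        rw [← add_div, div_le_div_iff_of_pos_right hq']
        linarith
      linarith

end

end Pool.Agent.NH98.KB
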