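import Pool.Agent.W649.ZL.Fam

set_option autoImplicit false
set_option linter.unusedSectionVars false

/-! Kernel dimensions along polynomial curves of operators. -/

namespace Pool.Agent.NH98.KB

open Pool.Agent.W649.ZL

universe u v w z

section
variable {G : Type u} {I : Type v} {J : Type w} [Group G] [Fintype I] [Fintype J]

/-- The common kernel of finitely many operators. -/
theorem lower' {P : Type*} (N : P → (EE G J →L[ℂ] EE G I)) (hN : ∀ p, Eqv (N p))
    (Y : Finset P) :
    ∃ K : Submodule ℂ (EE G J), W649.ZL.Inv K ∧ IsClosed (K : Set (EE G J)) ∧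
      (∀ f, f ∈ K ↔ ∀ p ∈ Y, N p f = 0) ∧
      (Fintype.card J : ℝ) - ∑ p ∈ Y, vd (LinearMap.range (N p : EE G J →ₗ[ℂ] EE G I)) ≤ vd K := by
  classical
  induction Y using Finset.induction_on with
  | empty => exact ⟨⊤, fun _ _ _ => trivial, by simp, by simp, by simp [vd_top]⟩
  | insert p Y hp ih =>
    obtain ⟨K, h1, h2, h3, h4⟩ := ih
    refine ⟨K ⊓ LinearMap.ker (N p : EE G J →ₗ[ℂ] EE G I), inv_inf h1 (inv_ker _ (hN p)), ?_, ?_, ?_⟩
    · rw [Submodule.coe_inf]
      exact h2.inter (ContinuousLinearMap.isClosed_ker (N p))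
    · intro f
      rw [Submodule.mem_inf, h3]
      constructor
      · rintro ⟨a, b⟩ p' hp'
        rcases Finset.mem_insert.1 hp' with rfl | hp'
        · exact b
        · exact a p' hp'
      · intro a
        exact ⟨fun p' hp' => a p' (Finset.mem_insert_of_mem hp'),
          a p (Finset.mem_insert_self _ _)⟩
    · have h5 := rank_nullity (N p) (hN p) h1 h2
      have h6 : vd (K.map (N p : EE G J →ₗ[ℂ] EE G I))
          ≤ vd (LinearMap.range (N p : EE G J →ₗ[ℂ] EE G I)) := vd_mono LinearMap.map_le_range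
      rw [Finset.sum_insert hp]
      linarith

/-- The moments of a family. -/
noncomputable def mom {n : ℕ} (z : Fin n → ℂ) (k : ℕ) : EE G (Fin n × J) →L[ℂ] EE G J :=
  lin (fun j : Fin n => coord j) (fun j => z j ^ k)

theorem mom_eqv {n : ℕ} (z : Fin n → ℂ) (k : ℕ) : Eqv (mom (G := G) (J := J) z k) :=
  lin_eqv _ (fun j => coord_tr j) _

theorem mom_apply {n : ℕ} (z : Fin n → ℂ) (k : ℕ) (f : EE G (Fin n × J)) :
    mom z k f = ∑ j, z j ^ k • coord j f := lin_apply _ _ _

theorem eq_zero_of_mom {n : ℕ} (z : Fin n → ℂ) (hz : Function.Injective z)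
    (f : EE G (Fin n × J)) (h : ∀ k < n, mom z k f = 0) : f = 0 := by
  apply eq_zero_of_coord
  have key : ∀ x : G × J, (fun j : Fin n => coord j f x) = 0 := by
    intro x
    apply Matrix.eq_zero_of_forall_pow_sum_mul_pow_eq_zero hz
    intro k
    have h1 := congrArg (fun g : EE G J => g x) (h k k.2)
    simp only [mom_apply, sum_apply_EE] at h1
    have h2 : ∀ j : Fin n, (z j ^ (k : ℕ) • coord j f) x = coord j f x * z j ^ (k : ℕ) := by
      intro j
      change z j ^ (k : ℕ) * coord j f x = _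
      ring
    rw [Finset.sum_congr rfl fun j _ => h2 j] at h1
    exact h1
  intro b
  ext x
  exact congrFun (key x) b

theorem upper' (n r : ℕ) (hr : r ≤ n) (T : ℕ → (EE G J →L[ℂ] EE G I))
    (z : Fin n → ℂ) (hz : Function.Injective z)
    (V : Submodule ℂ (EE G (Fin n × J))) (hV : W649.ZL.Inv V)
    (hc : IsClosed (V : Set (EE G (Fin n × J))))
    (h : ∀ f ∈ V, ∀ j, ∑ i ∈ Finset.range (r + 1), z j ^ i • T i (coord j f) = 0) :
    vd V ≤ r * Fintype.card J + ((n - r : ℕ) : ℝ) * vd (LinearMap.ker (T r : EE G J →ₗ[ℂ] EE G I)) := by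
  set κ := vd (LinearMap.ker (T r : EE G J →ₗ[ℂ] EE G I)) with hκ
  have key : ∀ m : ℕ, m ≤ n → ∃ W : Submodule ℂ (EE G (Fin n × J)), W649.ZL.Inv W ∧
      IsClosed (W : Set (EE G (Fin n × J))) ∧
      (∀ f, f ∈ W ↔ f ∈ V ∧ ∀ k < m, mom z k f = 0) ∧
      vd V ≤ ((min m r : ℕ) : ℝ) * Fintype.card J + ((m - r : ℕ) : ℝ) * κ + vd W := by
    intro m
    induction m with
    | zero => intro _; exact ⟨V, hV, hc, by simp, by simp⟩
    | succ m ih =>
      intro hm
      obtain ⟨W, h1, h2, h3, h4⟩ := ih (by omega)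
      refine ⟨W ⊓ LinearMap.ker ((mom z m : EE G (Fin n × J) →L[ℂ] EE G J) :
        EE G (Fin n × J) →ₗ[ℂ] EE G J), ?_, ?_, ?_, ?_⟩
      · exact inv_inf h1 (inv_ker _ (mom_eqv z m))
      · rw [Submodule.coe_inf]
        exact h2.inter (ContinuousLinearMap.isClosed_ker (mom z m))
      · intro f
        rw [Submodule.mem_inf, h3]
        constructor
        · rintro ⟨⟨a1, a2⟩, a3⟩
          refine ⟨a1, fun k hk => ?_⟩
          rcases Nat.lt_succ_iff_lt_or_eq.1 hk with hk | rfl
          · exact a2 k hk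
          · exact a3
        · rintro ⟨a1, a2⟩
          exact ⟨⟨a1, fun k hk => a2 k (by omega)⟩, a2 m (Nat.lt_succ_self m)⟩
      · have h5 := rank_nullity (mom (J := J) z m) (mom_eqv z m) h1 h2
        by_cases hmr : m < r
        · have h6 := vd_le_card (W.map ((mom z m : EE G (Fin n × J) →L[ℂ] EE G J) :
            EE G (Fin n × J) →ₗ[ℂ] EE G J))
          rw [min_eq_left (by omega : m ≤ r), (by omega : m - r = 0)] at h4
          rw [min_eq_left (by omega : m + 1 ≤ r), (by omega : m + 1 - r = 0)]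
          push_cast at h4 ⊢
          linarith
        · have h6 : vd (W.map ((mom z m : EE G (Fin n × J) →L[ℂ] EE G J) :
              EE G (Fin n × J) →ₗ[ℂ] EE G J)) ≤ κ := by
            rw [hκ]
            apply vd_mono
            rintro y ⟨x, hx, rfl⟩
            obtain ⟨hxV, hx0⟩ := (h3 x).1 hx
            change T r (mom z m x) = 0
            have h7 : ∑ i ∈ Finset.range (r + 1), T i (mom z (m - r + i) x) = 0 := by
              have h8 : ∀ i, T i (mom z (m - r + i) x)
                  = ∑ j, z j ^ (m - r) • (z j ^ i • T i (coord j x)) := by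
                intro i
                rw [mom_apply, map_sum]
                refine Finset.sum_congr rfl fun j _ => ?_
                rw [map_smul, smul_smul, ← pow_add]
              rw [Finset.sum_congr rfl fun i _ => h8 i, Finset.sum_comm]
              apply Finset.sum_eq_zero
              intro j _
              rw [← Finset.smul_sum, h x hxV j, smul_zero]
            rw [Finset.sum_range_succ, Finset.sum_eq_zero, zero_add] at h7
            · rwa [Nat.sub_add_cancel (by omega)] at h7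
            · intro i hi
              rw [Finset.mem_range] at hi
              rw [hx0 _ (by omega), map_zero]
          rw [min_eq_right (by omega : r ≤ m)] at h4
          rw [min_eq_right (by omega : r ≤ m + 1), (by omega : m + 1 - r = (m - r) + 1)]
          push_cast at h4 ⊢
          linarith
  obtain ⟨W, -, -, h3, h4⟩ := key n le_rfl
  have : W = ⊥ := by
    rw [eq_bot_iff]
    intro f hf
    exact eq_zero_of_mom z hz f ((h3 f).1 hf).2
  rw [this, vd_bot, add_zero, min_eq_right hr] at h4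
  exact h4

/-- The polynomial curve with the coefficients `T i`, `i ≤ r`. -/
noncomputable def pol (T : ℕ → (EE G J →L[ℂ] EE G I)) (r : ℕ) (x : ℂ) : EE G J →L[ℂ] EE G I :=
  lin (fun i : Fin (r + 1) => T i) (fun i => x ^ (i : ℕ))

theorem pol_apply (T : ℕ → (EE G J →L[ℂ] EE G I)) (r : ℕ) (x : ℂ) (f : EE G J) :
    pol T r x f = ∑ i ∈ Finset.range (r + 1), x ^ i • T i f := by
  unfold pol
  rw [lin_apply, Fin.sum_univ_eq_sum_range (fun i => x ^ i • T i f) (r + 1)]

theorem pol_eqv (T : ℕ → (EE G J →L[ℂ] EE G I)) (hT : ∀ i, Eqv (T i)) (r : ℕ) (x : ℂ) :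
    Eqv (pol T r x) := lin_eqv _ (fun i : Fin (r + 1) => hT i) _

theorem main1 (n r : ℕ) (hr : r ≤ n) (T : ℕ → (EE G J →L[ℂ] EE G I)) (hT : ∀ i, Eqv (T i))
    (z : Fin n → ℂ) (hz : Function.Injective z) :
    ∑ j, vd (LinearMap.ker (pol T r (z j) : EE G J →ₗ[ℂ] EE G I)) ≤
      r * Fintype.card J + ((n - r : ℕ) : ℝ) * vd (LinearMap.ker (T r : EE G J →ₗ[ℂ] EE G I)) := by
  classical
  obtain ⟨V, h1, h2, h3, h4⟩ := lower' (G := G) (J := Fin n × J) (I := I)
    (fun j : Fin n => (pol T r (z j)).comp (coord j)) (fun j => by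
      intro k f
      rw [ContinuousLinearMap.comp_apply, ContinuousLinearMap.comp_apply, coord_tr,
        pol_eqv T hT]) Finset.univ
  have h5 := upper' n r hr T z hz V h1 h2 (fun f hf j => by
    have := (h3 f).1 hf j (Finset.mem_univ _)
    rwa [ContinuousLinearMap.comp_apply, pol_apply] at this)
  have h6 : ∀ j : Fin n, vd (LinearMap.range ((pol T r (z j)).comp (coord j) :
      EE G (Fin n × J) →ₗ[ℂ] EE G I)) ≤ Fintype.card J
        - vd (LinearMap.ker (pol T r (z j) : EE G J →ₗ[ℂ] EE G I)) := by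
    intro j
    have h7 := ker_add_range (pol T r (z j)) (pol_eqv T hT r (z j))
    have h8 : vd (LinearMap.range ((pol T r (z j)).comp (coord j) :
        EE G (Fin n × J) →ₗ[ℂ] EE G I))
        ≤ vd (LinearMap.range (pol T r (z j) : EE G J →ₗ[ℂ] EE G I)) := by
      apply vd_mono
      rintro y ⟨x, rfl⟩
      exact ⟨coord j x, rfl⟩
    linarith
  have h7 := Finset.sum_le_sum fun j (_ : j ∈ Finset.univ) => h6 j
  rw [Finset.sum_sub_distrib, Finset.sum_const, Finset.card_univ, Fintype.card_fin,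
    nsmul_eq_mul] at h7
  rw [Fintype.card_prod, Fintype.card_fin, Nat.cast_mul] at h4
  linarith

theorem main2 (r : ℕ) (T : ℕ → (EE G J →L[ℂ] EE G I)) (hT : ∀ i, Eqv (T i)) (S : Finset ℂ) :
    ∑ x ∈ S, (vd (LinearMap.ker (pol T r x : EE G J →ₗ[ℂ] EE G I)) -
        vd (LinearMap.ker (T r : EE G J →ₗ[ℂ] EE G I))) ≤
      r * (Fintype.card J - vd (LinearMap.ker (T r : EE G J →ₗ[ℂ] EE G I))) := by
  classical
  set κ := vd (LinearMap.ker (T r : EE G J →ₗ[ℂ] EE G I)) with hκ
  have hκ1 : κ ≤ Fintype.card J := vd_le_card _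
  rw [Finset.sum_sub_distrib, Finset.sum_const, nsmul_eq_mul]
  by_cases hr : r ≤ S.card
  · have h1 := main1 S.card r hr T hT (fun j => (S.equivFin.symm j : ℂ))
      (fun a b h => S.equivFin.symm.injective (Subtype.ext h))
    have h2 : ∑ j : Fin S.card, vd (LinearMap.ker (pol T r ((S.equivFin.symm j : ℂ)) :
        EE G J →ₗ[ℂ] EE G I)) = ∑ x ∈ S, vd (LinearMap.ker (pol T r x : EE G J →ₗ[ℂ] EE G I)) := by
      rw [← Finset.sum_coe_sort S]
      exact S.equivFin.symm.sum_comp
        (fun x : S => vd (LinearMap.ker (pol T r (x : ℂ) : EE G J →ₗ[ℂ] EE G I)))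
    rw [h2, ← hκ, Nat.cast_sub hr] at h1
    linarith
  · push Not at hr
    have h1 : ∑ x ∈ S, vd (LinearMap.ker (pol T r x : EE G J →ₗ[ℂ] EE G I)) ≤
        S.card * Fintype.card J := by
      rw [← nsmul_eq_mul]
      exact Finset.sum_le_card_nsmul _ _ _ fun x _ => vd_le_card _
    have h2 : (S.card : ℝ) ≤ r := by exact_mod_cast hr.le
    nlinarith

/-- The coefficients of the Taylor expansion at `c`. -/
noncomputable def tay (T : ℕ → (EE G J →L[ℂ] EE G I)) (r : ℕ) (c : ℂ) (k : ℕ) :
    EE G J →L[ℂ] EE G I :=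
  lin (fun i : Fin (r + 1) => T i) (fun i => c ^ ((i : ℕ) - k) * ((i : ℕ).choose k : ℂ))

theorem tay_apply (T : ℕ → (EE G J →L[ℂ] EE G I)) (r : ℕ) (c : ℂ) (k : ℕ) (f : EE G J) :
    tay T r c k f = ∑ i ∈ Finset.range (r + 1), (c ^ (i - k) * (i.choose k : ℂ)) • T i f := by
  unfold tay
  rw [lin_apply,
    Fin.sum_univ_eq_sum_range (fun i => (c ^ (i - k) * (i.choose k : ℂ)) • T i f) (r + 1)]

theorem tay_eqv (T : ℕ → (EE G J →L[ℂ] EE G I)) (hT : ∀ i, Eqv (T i)) (r : ℕ) (c : ℂ) (k : ℕ) :
    Eqv (tay T r c k) := lin_eqv _ (fun i : Fin (r + 1) => hT i) _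

theorem tay_zero (T : ℕ → (EE G J →L[ℂ] EE G I)) (r : ℕ) (c : ℂ) :
    tay T r c 0 = pol T r c := by
  ext1 f
  rw [tay_apply, pol_apply]
  simp

theorem pol_add (T : ℕ → (EE G J →L[ℂ] EE G I)) (r : ℕ) (c h : ℂ) (hh : h ≠ 0) (f : EE G J) :
    pol T r (c + h) f = h ^ r • pol (fun i => tay T r c (r - i)) r h⁻¹ f := by
  have e1 : h ^ r • pol (fun i => tay T r c (r - i)) r h⁻¹ f
      = ∑ k ∈ Finset.range (r + 1), h ^ k • tay T r c k f := by
    rw [pol_apply, Finset.smul_sum, ← Finset.sum_range_reflect (fun k => h ^ k • tay T r c k f)]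
    refine Finset.sum_congr rfl fun i hi => ?_
    rw [Finset.mem_range] at hi
    rw [smul_smul, show r + 1 - 1 - i = r - i by omega]
    congr 1
    have h1 : h ^ r = h ^ (r - i) * h ^ i := by rw [← pow_add, Nat.sub_add_cancel (by omega)]
    rw [h1, mul_assoc, ← mul_pow, mul_inv_cancel₀ hh, one_pow, mul_one]
  rw [e1, pol_apply]
  have e2 : ∀ k, h ^ k • tay T r c k f
      = ∑ i ∈ Finset.range (r + 1), (h ^ k * (c ^ (i - k) * (i.choose k : ℂ))) • T i f := by
    intro k
    rw [tay_apply, Finset.smul_sum]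
    exact Finset.sum_congr rfl fun i _ => by rw [smul_smul]
  rw [Finset.sum_congr rfl fun k _ => e2 k, Finset.sum_comm]
  refine Finset.sum_congr rfl fun i hi => ?_
  rw [Finset.mem_range] at hi
  rw [← Finset.sum_smul]
  congr 1
  rw [add_comm c h, add_pow]
  have h3 : ∑ k ∈ Finset.range (i + 1), h ^ k * c ^ (i - k) * (i.choose k : ℂ)
      = ∑ k ∈ Finset.range (r + 1), h ^ k * c ^ (i - k) * (i.choose k : ℂ) := by
    apply Finset.sum_subset
    · intro k hk
      rw [Finset.mem_range] at hk ⊢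
      omega
    · intro k _ hk
      rw [Finset.mem_range] at hk
      rw [Nat.choose_eq_zero_of_lt (by omega), Nat.cast_zero, mul_zero]
  rw [h3]
  exact Finset.sum_congr rfl fun k _ => by ring

/-- **Kernel dimensions along a polynomial curve.** -/
theorem main3 (r : ℕ) (T : ℕ → (EE G J →L[ℂ] EE G I)) (hT : ∀ i, Eqv (T i)) (c : ℂ)
    (S : Finset ℂ) :
    ∑ x ∈ S, (vd (LinearMap.ker (pol T r x : EE G J →ₗ[ℂ] EE G I)) -
        vd (LinearMap.ker (pol T r c : EE G J →ₗ[ℂ] EE G I))) ≤
      r * (Fintype.card J - vd (LinearMap.ker (pol T r c : EE G J →ₗ[ℂ] EE G I))) := by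
  classical
  set B : ℕ → (EE G J →L[ℂ] EE G I) := fun i => tay T r c (r - i) with hB
  have hBr : B r = pol T r c := by
    change tay T r c (r - r) = _
    rw [Nat.sub_self, tay_zero]
  have h1 := main2 r B (fun i => tay_eqv T hT r c _) ((S.erase c).image (fun x => (x - c)⁻¹))
  rw [hBr, Finset.sum_image] at h1
  · rw [← Finset.sum_erase S (a := c) (by rw [sub_self])]
    refine le_trans (le_of_eq ?_) h1
    refine Finset.sum_congr rfl fun x hx => ?_
    have hxc : x - c ≠ 0 := sub_ne_zero.2 (Finset.ne_of_mem_erase hx)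
    congr 2
    ext f
    have h2 := pol_add T r c (x - c) hxc f
    rw [add_sub_cancel] at h2
    constructor
    · intro hf
      have hf' : pol T r x f = 0 := hf
      rw [h2] at hf'
      exact (smul_eq_zero.1 hf').resolve_left (pow_ne_zero _ hxc)
    · intro hf
      have hf' : pol B r (x - c)⁻¹ f = 0 := hf
      change pol T r x f = 0
      rw [h2, hf', smul_zero]
  · intro a ha b hb hab
    have := inv_injective hab
    exact sub_left_injective this

end

end Pool.Agent.NH98.KB
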